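import Pool.Agent.TH746.AL.Dim3

/-!
# Ivrii's conjecture for orbits with at most one arbitrary bounce, all the others being at algebraic
boundary points

Definitions (files `Pool/Agent/H721R2/Ivrii/Def.lean` and `Pool/Agent/TH746/AL/Main.lean`), for a set
`Ω` (the table) in `ℝ^d`:

* `LocalDef Ω q F`: near `q` the table is `{F < 0}`, `F` is `C³` near `q`, `F q = 0` and the
  gradient of `F` at `q` is not zero;
* `Step Ω q v q' v'`: the particle leaves `q` with velocity `v`, stays in `Ω` until it meets the
  boundary transversally at `q' = q + t v`, `t > 0`, where the boundary is regular of class `C³`,
  and `v'` is the velocity reflected there;
* `OrbitMod Ω g n p u`: `(p k, u k)` is a billiard trajectory of unit speed which is carried into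
  itself by the isometry `g` after `n ≥ 1` bounces: `p (k+n) = g (p k)`, `u (k+n) = g' (u k)`, where
  `g'` is the linear part of `g`;
* `AlgAt Ω q`: near `q` the boundary (frontier) of `Ω` lies in the zero set of a real polynomial the
  leading form of which (homogeneous part of top degree) is not divisible by `X₁² + ... + X_d²`
  (a noncircular algebraic boundary point);
* `PerLoop Γ Ω`: the phase points `(q, v)` which start a periodic trajectory modulo some `g ∈ Γ`,
  with any number `n` of bounces in a period, which comes back to one of its bounce points within a
  period, `p b = h (p a)` with `h ∈ Γ`, `0 ≤ a < n`, `a < b ≤ a + n`, in such a way that all the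
  bounce points `p k` with `a < k < b` are noncircular algebraic boundary points. The bounce points
  `p a` and `p b` and all those before and after are arbitrary.

The theorem: for every `d ≥ 2`, if `Γ` is a countable set of isometries of `ℝ^d` preserving the set
`Ω ⊆ ℝ^d`, then `PerLoop Γ Ω` has Hausdorff dimension at most `2 d - 3`. The phase space has dimension
`2 d - 2`, so this set is negligible (`null_of_dim`), which is what the conjecture asks for. The
dimension `2 d - 3` cannot be lowered in general: in the plane the periodic orbits of an ellipse
tangent to a given confocal ellipse fill a curve of the phase space.

With `b = a + n` and `h = g` (`one_sub_perLoop`): almost every periodic point, of any period, has at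
least two bounces in a period at points which are not noncircular algebraic boundary points. The
theorem `AlgebraicBounces` of the starting files treats the periodic orbits all of whose bounces are
at such points. Here the mirror at one bounce of the period is an arbitrary surface of class `C³`,
and the mirror may even be met any number of times at the same point.

## Outline of the proof

Let `k` be a countable field over which the algebraic pieces of the boundary and the isometry `h`
are defined, `x = p a`, `u = u a`, and `K = k(x)`, which contains the coordinates of `p b = h x`.

* Length (`length_alg`). Let `D` be a derivation of `ℝ` over `K`. The first variation formula gives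
  `D (L) = 0` for the length `L` of the trajectory from `p a` to `p b`: the ends do not contribute,
  as `D` kills the coordinates of `p a` and `p b`; the mirrors in between are defined over `k`.
  Hence `L` is algebraic over `K`. Nothing is used about the mirror at `x`.
* Place (`core_loop`). Assume that `x` has at least `d - 1` algebraically independent coordinates
  over `k` and that the direction `u` is generic over `K` (transcendence degree `d - 1`). For a real
  `λ` transcendental over `K(u)` let `e = λ u`, a generic vector over `K`. There is a place of `ℝ`,
  finite and trivial on `K`, at which `e` becomes a generic isotropic vector. The noncircular mirrors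
  are not tangent at infinity to isotropic lines, so all the flight parameters `t i / λ` are finite
  at this place, first from `x` and then from mirror to mirror (`step_lemma` of the starting files;
  the starting point is moved along the line to the hyperplane `X₀ = 0`, `shift_rank`), the last one
  because the end `h x` is finite. Hence `L / λ` is finite while `λ² = e · e` vanishes at the place,
  so `L = 0` at the place, which is impossible for a nonzero element algebraic over `K`.
* So (`loop_rank`) for every phase point `(x, u)` considered, either `x` has transcendence degree at
  most `d - 2` over `k`, or `u` has transcendence degree at most `d - 2` over `K`. Either `(x, u)` has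
  transcendence degree at most `2 d - 3` over `k`, and such points form a set of dimension at most
  `2 d - 3` (`dimH_low`), or the `d` coordinates of `x` are algebraically independent and all the
  coordinates of `u` satisfy equations over `k` in those of `x` and in at most `d - 2` of those of `u`
  (`exists_zset`): locally the pair is then a Lipschitz function of the chart parameter of `x` in the
  boundary (dimension `d - 1`) and of `d - 2` coordinates of `u` (`dim_piece`, `fub_dim`). The
  billiard map is locally Lipschitz and does not raise the dimension.
-/

set_option autoImplicit false

open scoped ENNReal

namespace Pool.Agent.Results.MP_249f74_an.OneArbitraryBounce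

open Pool.Agent.TH746.AL

/-- For every `d ≥ 2`, every table `Ω ⊆ ℝ^d` and every countable set `Γ` of isometries preserving
`Ω`, the phase points whose trajectory is periodic modulo `Γ`, with any number of bounces in a
period, and comes back within a period to one of its bounce points (modulo `Γ`) with all bounces in
between at noncircular algebraic boundary points form a set of Hausdorff dimension at most
`2 d - 3` (the phase space has dimension `2 d - 2`). In particular those with at most one bounce in a
period at another kind of boundary point. -/
theorem result (d : ℕ) (hd : 2 ≤ d) (Ω : Set (EuclideanSpace ℝ (Fin d)))
    (Γ : Set (EuclideanSpace ℝ (Fin d) ≃ᵃⁱ[ℝ] EuclideanSpace ℝ (Fin d)))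
    (hΓ : Γ.Countable) (hinv : ∀ g ∈ Γ, g ⁻¹' Ω = Ω) :
    dimH (PerLoop Γ Ω) ≤ ((2 * d - 3 : ℕ) : ℝ≥0∞) :=
  perLoop_dim hd Ω Γ hΓ hinv

end Pool.Agent.Results.MP_249f74_an.OneArbitraryBounce
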