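import Pool.Agent.TH746.OB.Main2

/-!
# Ivrii's conjecture for orbits with at most one non-umbilic bounce (one bounce which is not a vertex,
for planar tables)

Definitions (files `Pool/Agent/H721R2/Ivrii/Def.lean`, `Pool/Agent/TH746/UM/Curv.lean`,
`Pool/Agent/TH746/UM/Main.lean` and `Pool/Agent/TH746/OB/Main2.lean`), for a set `Ω` (the table) in
`ℝ^d`:

* `LocalDef Ω q F`: near `q` the table is `{F < 0}`, `F` is `C³` near `q`, `F q = 0` and the
  gradient of `F` at `q` is not zero;
* `SmoothAt Ω q`: for some such `F`, `F` is of class `C^∞` near `q`;
* `Curv Ω x κ`: for some such `F` at `x`, `F''(x)(w, w) = κ |∇F(x)| |w|²` for all tangent vectors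
  `w`, i.e. all the normal curvatures of the boundary at `x` are equal to `κ`;
* `Umbilic Ω q`: `Curv Ω q κ` for some `κ` (`κ = 0` included), a condition on the second
  fundamental form at the single point `q`;
* `Vertex Ω q` (used in the plane): the curvature `κ x` of the boundary at its points `x` near `q`
  satisfies `κ x - κ q = o(|x - q|)`, i.e. the derivative of the curvature vanishes at `q`;
* `Round Ω q`: `SmoothAt Ω q` and, if `d = 2`, `Vertex Ω q`, and, if `d ≥ 3`, `Umbilic Ω q`;
* `Step Ω q v q' v'`: the particle leaves `q` with velocity `v`, stays in `Ω` until it meets the
  boundary transversally at `q' = q + t v`, `t > 0`, where the boundary is regular of class `C³`,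
  and `v'` is the velocity reflected there;
* `OrbitMod Ω g n p u`: `(p k, u k)` is a billiard trajectory of unit speed which is carried into
  itself by the isometry `g` after `n ≥ 1` bounces: `p (k+n) = g (p k)`, `u (k+n) = g' (u k)`, where
  `g'` is the linear part of `g`;
* `PerOne Γ Ω`: the phase points `(q, v)` which start such a trajectory for some `g ∈ Γ` and some
  `n`, with `SmoothAt Ω` at all the bounce points `p k`, at most one of the `n` points
  `p 0, ..., p (n - 1)` being not `Round`.

The theorem: for every `d ≥ 2`, if `Γ` is a countable set of isometries of `ℝ^d` preserving the set
`Ω ⊆ ℝ^d`, then `PerOne Γ Ω` has vanishing `(2 d - 2)`-dimensional Hausdorff measure. For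
`Γ = {id}` and a table with `C^∞` boundary: almost every periodic point, of any period, has at least
two bounces in a period at points which are not umbilic (which are not vertices, if `d = 2`).

The theorem `UmbilicBounces` of the starting files treats the orbits all of whose bounces are at
points near which the boundary is exactly a sphere or a hyperplane. Here the condition is one on
finitely many derivatives of the boundary at the bounce points alone, and one of the bounces of
a period is arbitrary.

## Outline of the proof

Let the arbitrary bounce be the one at `p 0`. Near a given trajectory the trajectories which obey the
reflection law at the vertices `1, ..., n` depend smoothly on the `2 d - 2` parameters of the first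
side (`exists_schn`). Assume that those which close up modulo `g` with round bounce points
`1, ..., n - 1` form a set `A` of positive measure in the parameter space.

* Flatness (`exists_appr`, `umb_flat`, `lam_flat`). At almost all `z ∈ A` every smooth function that
  vanishes on `A` vanishes to infinite order at `z`. It follows (for `d ≥ 3` with the help of the
  Codazzi equation) that at almost all `z ∈ A` the boundary has contact of infinite order, in
  position and normal, with its osculating sphere or hyperplane at the vertices `1, ..., n - 1`.
  By the first variation formula (`dlen`) the length of a period is constant to infinite order.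
* Shadowing (`chain_shadow2`). The true trajectory and the one in the model table bounded by the
  osculating spheres and hyperplanes, with the same first side, differ by `O(|z' - z|^M)` for all `M`.
* So the model chain of `n - 1` reflections carries the line of the first side to a line which meets
  its image under `g` at the image of one of its points, at the constant distance `ℓ` along the
  path, to infinite order on `A` near `z`. This is an analytic condition on the line in which the
  mirror at `p 0` does not occur any more; hence it holds for an open set of lines (`red2`), and then
  for the generic line over an extension field of `ℂ` (`germC`).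
* Algebra. For the generic line `(x, v)` the reflections in a reduced word of spheres are defined over
  a tower `U` of quadratic extensions of `ℂ(x, v)` (universal chain, from the starting files). The time
  `T` between the two points of the closing condition is an element of `U`, because the two
  lines are not parallel, and `T² (v · v) = ℓ²` with `ℓ ≠ 0`, so `v · v` is a square in `U` (`no_C`).
  But `U` embeds in a field of Laurent series `L((κ))` in such a way that `v · v = κ² (c + ...)`, where
  `c ∈ L` is not a square (`spec_q`): nearly isotropic lines, the intersection parameters of which
  grow from mirror to mirror. This is a contradiction.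
-/

set_option autoImplicit false

open MeasureTheory

namespace Pool.Agent.Results.MP_249f74_an.OneNonUmbilicBounce

open Pool.Agent.TH746.OB

/-- For every `d ≥ 2`, every table `Ω ⊆ ℝ^d` and every countable set `Γ` of isometries preserving
`Ω`, the phase points whose trajectory is periodic modulo `Γ`, with any number of bounces in a
period, all of them at points near which the boundary is `C^∞` and at most one of them at a point
which is not umbilic (`d ≥ 3`), resp. not a vertex (`d = 2`), form a set of
`(2 d - 2)`-dimensional Hausdorff measure zero. -/
theorem result (d : ℕ) (hd : 2 ≤ d) (Ω : Set (EuclideanSpace ℝ (Fin d)))
    (Γ : Set (EuclideanSpace ℝ (Fin d) ≃ᵃⁱ[ℝ] EuclideanSpace ℝ (Fin d)))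
    (hΓ : Γ.Countable) (hinv : ∀ g ∈ Γ, g ⁻¹' Ω = Ω) :
    μH[((2 * d - 2 : ℕ) : ℝ)] (PerOne Γ Ω) = 0 :=
  perOne_null hd Ω Γ hΓ hinv

end Pool.Agent.Results.MP_249f74_an.OneNonUmbilicBounce
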