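import Pool.Agent.TH746.Final

/-!
# Ivrii's conjecture in every dimension for orbits with at most three curved bounces

Definitions (file `Pool/Agent/H721R2/Ivrii/Def.lean`), for a set `Ω` (the table) in a real inner
product space:

* `LocalDef Ω q F`: near `q` the table is `{F < 0}`, `F` is `C³` near `q`, `F q = 0` and the
  gradient of `F` at `q` is not zero;
* `ZeroCurv Ω q`: for some such `F` the second derivative `F''(q)` vanishes on the tangent space,
  i.e. the boundary is regular at `q` and its second fundamental form at the single point `q` is
  zero;
* `Step Ω q v q' v'`: the particle leaves `q` with velocity `v`, stays in `Ω` until it meets the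
  boundary transversally at `q' = q + t v`, `t > 0`, where the boundary is regular of class `C³`,
  and `v'` is the velocity reflected there;
* `OrbitMod Ω g n p u`: `(p k, u k)` is a billiard trajectory of unit speed which is carried into
  itself by the isometry `g` after `n ≥ 1` bounces: `p (k+n) = g (p k)`, `u (k+n) = g' (u k)`, where
  `g'` is the linear part of `g`;
* `PerMod Γ Ω`: the phase points `(q, v)` which start such a trajectory for some `g ∈ Γ` and some
  `n`, at most three of the `n` bounces being at points where the second fundamental form of the
  boundary is not zero.

The theorem: for every `d ≥ 2`, if `Γ` is a countable set of isometries of `ℝ^d` preserving the set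
`Ω ⊆ ℝ^d`, then `PerMod Γ Ω` has vanishing `(2 d - 2)`-dimensional Hausdorff measure. For `Γ = {id}`
these are the periodic orbits, of any period: almost every periodic point of any table has at least
four bounces of nonzero curvature in a period. For a lattice `Γ` these are the periodic orbits of the
billiard in a torus (Lorentz gas). The case `d = 2` is the theorem `plane_mod_null` of the starting
files; everything for `d ≥ 3` is in the files `Pool/Agent/TH746`.

## Outline of the proof for `d ≥ 3`

Near a given trajectory the trajectories which obey the reflection law at the vertices `1, ..., n`
depend on the `2 d - 2` parameters of the first side (`Chn`, `exists_chn`). If the trajectories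
which close up modulo `g`, with vanishing shape operator at all vertices but three, had positive
measure in the parameter space, then at almost all of them every differentiable function vanishing
on this set `A` would have zero derivative (`Chn.exists_cyc`, `ae_zero`).

* Contraction (`Cyc.contract`). At the points of `A` the normal of a vertex with zero shape operator
  is stationary to the first order, so the product of any number of reflections in such mirrors is an
  isometry whose derivative at the points of `A` vanishes. Unfolding these mirrors gives a family
  with exactly three mirrors (`Cyc` with `q = 3`) which is closed modulo a stationary isometry `V z`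
  that may vary from point to point (and has positive measure, so that all zero derivative arguments
  remain available).
* First order (`Cyc.first`, `Cyc.quad`). Variations which keep the vertex `0` fixed give the shape
  operator at the vertex `1` in terms of the lengths, the normals and the holonomy `W` (the product
  of the reflections and `V`), which is an orthogonal operator fixing the direction `u` of the side
  `0`. The symmetry of the shape operator gives a relation which implies that `W` is an involution.
* Second order (`Cyc.f2_rel`). The derivative of this relation in the directions which keep the
  vertex `1` fixed gives relations `Qp`, `Qm` on the eigenspaces of `W` in the complement of `u`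
  (`Dat.OK`); the third derivatives of the boundary do not enter.
* Linear algebra (`no_dat`). Written for the three sides of the trajectory these relations are
  contradictory: `W` cannot be `-1` on the complement of `u` (`OK.caseA`), its fixed space there is
  one-dimensional (`OK.one_dim`), and then the odd and the even parts of the normals satisfy the
  relations of `alg1`, `alg2`, `alg3`, which have no solution with positive lengths.
* Two mirrors (`Cyc.null_two`) and one mirror (replaced by three times the period modulo `g³`) are
  treated in the same way.
-/

set_option autoImplicit false

open MeasureTheory

namespace Pool.Agent.Results.MP_249f74_an.ThreeCurvedAllDimensions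

open Pool.Agent.H721R2.Ivrii

/-- For every `d ≥ 2`, every table `Ω ⊆ ℝ^d` and every countable set `Γ` of isometries preserving
`Ω`, the phase points whose trajectory is periodic modulo `Γ`, with any number of bounces in a
period, at most three of which are at points of nonzero curvature, form a set of
`(2 d - 2)`-dimensional Hausdorff measure zero. -/
theorem result (d : ℕ) (hd : 2 ≤ d) (Ω : Set (EuclideanSpace ℝ (Fin d)))
    (Γ : Set (EuclideanSpace ℝ (Fin d) ≃ᵃⁱ[ℝ] EuclideanSpace ℝ (Fin d)))
    (hΓ : Γ.Countable) (hinv : ∀ g ∈ Γ, g ⁻¹' Ω = Ω) :
    μH[((2 * d - 2 : ℕ) : ℝ)] (PerMod Γ Ω) = 0 := by
  rcases Nat.lt_or_ge d 3 with h | h
  · obtain rfl : d = 2 := by omega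
    have h2 := plane_mod_null Ω Γ hΓ hinv
    norm_num
    exact h2
  · have h2 := Pool.Agent.TH746.perMod_null_dim (E := EuclideanSpace ℝ (Fin d))
      (by rw [finrank_euclideanSpace_fin]; exact h) Ω Γ hΓ hinv
    rwa [finrank_euclideanSpace_fin] at h2

end Pool.Agent.Results.MP_249f74_an.ThreeCurvedAllDimensions
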