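import Pool.Agent.TH318.IvK

set_option autoImplicit false

open MeasureTheory
open Pool.Agent.H721R2.Ivrii Pool.Agent.TH318.Iv

namespace Pool.Agent.Results.MP_249f74_an.WeakFocusing

/-- Periodic billiard trajectories (of any period, modulo a countable set of isometries of the
table) with weak focusing off one bounce form a set of measure zero. In particular almost every
periodic phase point has at least two focusing bounces, and at least three if the number of bounces
and the dimension have the same parity. -/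
theorem result {E : Type*} [NormedAddCommGroup E] [InnerProductSpace ℝ E] [FiniteDimensional ℝ E]
    [MeasurableSpace E] [BorelSpace E] (hd : 2 ≤ Module.finrank ℝ E) (Ω : Set E)
    (Γ : Set (E ≃ᵃⁱ[ℝ] E)) (hΓ : Γ.Countable) (hinv : ∀ g ∈ Γ, g ⁻¹' Ω = Ω) :
    μH[(2 * Module.finrank ℝ E - 2 : ℕ)] (WeakPer Γ Ω) = 0 ∧
      μH[(2 * Module.finrank ℝ E - 2 : ℕ)] (FewPer Γ Ω) = 0 ∧
      μH[(2 * Module.finrank ℝ E - 2 : ℕ)] (TotPer Γ Ω) = 0 :=
  ⟨weakPer_null hd Ω Γ hΓ hinv,
    measure_mono_null (few_sub hd Ω Γ hinv) (weakPer_null hd Ω Γ hΓ hinv),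
    measure_mono_null (tot_sub hd Ω Γ) (weakPer_null hd Ω Γ hΓ hinv)⟩

end Pool.Agent.Results.MP_249f74_an.WeakFocusing
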